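import Pool.Agent.H.MP_598c7e_an.A

set_option autoImplicit false

namespace Pool.Agent.Results.MP_598c7e_an.No
open scoped ENNReal NNReal
open MeasureTheory Set Filter FourierTransform Pool.Agent.H.MP_598c7e_an

/-- exponent functions -/
def IsExp (p : ℝ → ℝ≥0∞) : Prop := Measurable p ∧ ∀ x, 1 ≤ p x

/-- the modular -/
noncomputable def rho (p : ℝ → ℝ≥0∞) (f : ℝ → ℂ) : ℝ≥0∞ :=
  (∫⁻ x in {x | p x ≠ ⊤}, ‖f x‖ₑ ^ (p x).toReal) +
    eLpNormEssSup f (volume.restrict {x | p x = ⊤})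

/-- membership in the variable Lebesgue space -/
def MemV (p : ℝ → ℝ≥0∞) (f : ℝ → ℂ) : Prop :=
  AEStronglyMeasurable f ∧ ∃ l : ℝ, 0 < l ∧ rho p (fun x => f x / l) < ⊤

/-- the Luxemburg norm -/
noncomputable def nrm (p : ℝ → ℝ≥0∞) (f : ℝ → ℂ) : ℝ≥0∞ :=
  ⨅ (l : ℝ) (_ : 0 < l) (_ : rho p (fun x => f x / l) ≤ 1), ENNReal.ofReal l

/-- boundedness of the Fourier transform -/
def Bdd (p q : ℝ → ℝ≥0∞) : Prop :=
  ∃ C : ℝ≥0, ∀ f : ℝ → ℂ, Integrable f → MemV p f → nrm q (𝓕 f) ≤ C * nrm p f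

theorem result : ∃ p q r s : ℝ → ℝ≥0∞, IsExp p ∧ IsExp q ∧ IsExp r ∧ IsExp s ∧ Bdd p q ∧
    (∀ x, (r x)⁻¹ + (p x)⁻¹ = (essInf p volume)⁻¹) ∧
    (∀ x, (s x)⁻¹ + 1 = (q x)⁻¹ + (essInf p volume)⁻¹) ∧
    ¬ MemV r (fun _ => 1) := by
  classical
  obtain ⟨p, hp⟩ : ∃ p : ℝ → ℝ≥0∞, p = A.piecewise (fun _ => 2) (fun _ => 4 / 3) := ⟨_, rfl⟩
  obtain ⟨r, hr⟩ : ∃ r : ℝ → ℝ≥0∞, r = A.piecewise (fun _ => 4) (fun _ => ⊤) := ⟨_, rfl⟩
  have p1 : ∀ x ∈ A, p x = 2 := fun x h => by rw [hp, piecewise_eq_of_mem _ _ _ h]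
  have p2 : ∀ x ∉ A, p x = 4 / 3 := fun x h => by rw [hp, piecewise_eq_of_notMem _ _ _ h]
  have r1 : ∀ x ∈ A, r x = 4 := fun x h => by rw [hr, piecewise_eq_of_mem _ _ _ h]
  have r2 : ∀ x ∉ A, r x = ⊤ := fun x h => by rw [hr, piecewise_eq_of_notMem _ _ _ h]
  have ct : (4 / 3 : ℝ≥0∞) ≠ ⊤ := by finiteness
  have cr : (4 / 3 : ℝ≥0∞).toReal = 4 / 3 := by simp
  have c1 : (1 : ℝ≥0∞) ≤ 4 / 3 := by
    rw [← ENNReal.toReal_le_toReal ENNReal.one_ne_top ct, cr]; norm_num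
  have c2 : (4 / 3 : ℝ≥0∞) ≤ 2 := by
    rw [← ENNReal.toReal_le_toReal ct (by simp), cr]; norm_num
  have ci : (4 / 3 : ℝ≥0∞)⁻¹ ≠ ⊤ := ENNReal.inv_ne_top.2 (zero_lt_one.trans_le c1).ne'
  have pl : ∀ x, 4 / 3 ≤ p x := fun x => by
    by_cases h : x ∈ A
    · rw [p1 x h]; exact c2
    · rw [p2 x h]
  have ei : essInf p volume = 4 / 3 := by
    refine le_antisymm ?_ (le_essInf_of_ae_le _ (.of_forall pl))
    rw [essInf_eq_sSup]
    refine sSup_le fun a ha => not_lt.1 fun h => ?_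
    have : Iio (0 : ℝ) ⊆ {x | p x < a} := fun x hx => by
      rw [mem_ofPred_eq, p2 x fun hA => ?_]
      · exact h
      · obtain ⟨j, hj⟩ := mem_iUnion.1 hA
        exact absurd (hj.1.trans_lt hx) (not_lt.2 (by positivity))
    have := measure_mono_null this ha
    simp at this
  refine ⟨p, fun _ => 4, r, fun _ => ⊤, ⟨hp ▸ measurable_const.piecewise mA measurable_const,
    fun x => c1.trans (pl x)⟩, ⟨measurable_const, fun _ => by norm_num⟩,
    ⟨hr ▸ measurable_const.piecewise mA measurable_const, fun x => ?_⟩,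
    ⟨measurable_const, fun _ => le_top⟩, ⟨3, fun f hf _ => ?_⟩, fun x => ?_, fun x => ?_, ?_⟩
  · by_cases h : x ∈ A
    · rw [r1 x h]; norm_num
    · rw [r2 x h]; exact le_top
  · unfold nrm
    simp only [ENNReal.mul_iInf_of_ne (a := ((3 : ℝ≥0) : ℝ≥0∞)) (by simp) (by simp)]
    refine le_iInf fun l => le_iInf fun l0 => le_iInf fun h => iInf_le_of_le (3 * l)
      (iInf_le_of_le (by positivity) (iInf_le_of_le ?_ (by simp [ENNReal.ofReal_mul])))
    have pt : {x | p x ≠ ⊤} = univ := eq_univ_of_forall fun x => by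
      by_cases h : x ∈ A
      · rw [mem_ofPred_eq, p1 x h]; simp
      · rw [mem_ofPred_eq, p2 x h]; exact ct
    have h' := le_self_add.trans h
    rw [pt, Measure.restrict_univ] at h'
    have h1 : ∫⁻ y in Aᶜ, ‖f y / l‖ₑ ^ (4 / 3 : ℝ) ≤ 1 := by
      refine le_of_eq_of_le (setLIntegral_congr_fun mA.compl fun y hy => ?_)
        ((setLIntegral_le_lintegral _ _).trans h')
      simp only [p2 y hy, cr]
    have h2 : ∫⁻ y in A, ‖f y / l‖ₑ ^ 2 ≤ 1 := by
      refine le_of_eq_of_le (setLIntegral_congr_fun mA fun y hy => ?_)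
        ((setLIntegral_le_lintegral _ _).trans h')
      simp only [p1 y hy, ENNReal.toReal_ofNat, ENNReal.rpow_two]
    have m := main (hf.div_const _) h1 h2
    have e : ∀ ξ, 𝓕 f ξ / ((3 * l : ℝ) : ℂ) = 3⁻¹ * 𝓕 (fun y => f y / l) ξ := fun ξ => by
      have : 𝓕 (fun y => f y / l) ξ = 𝓕 f ξ / l := by
        rw [Real.fourier_eq, Real.fourier_eq, ← integral_div]
        simp only [Circle.smul_def, smul_eq_mul, mul_div_assoc]
      rw [this]
      push_cast
      ring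
    unfold rho
    simp only [e, enorm_mul, ne_eq, ENNReal.ofNat_ne_top, not_false_eq_true, ofPred_true,
      Measure.restrict_univ, ofPred_false, Measure.restrict_empty, eLpNormEssSup_measure_zero,
      add_zero, ENNReal.toReal_ofNat, ENNReal.rpow_ofNat, mul_pow]
    rw [lintegral_const_mul' _ _ (by finiteness)]
    have : ‖(3⁻¹ : ℂ)‖ₑ = 3⁻¹ := by
      rw [enorm_inv (by norm_num), ← ofReal_norm]; simp
    rw [this]
    refine (mul_le_mul_right m _).trans ?_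
    rw [← ENNReal.toReal_le_toReal (by finiteness) ENNReal.one_ne_top]
    simp
    norm_num
  · rw [ei]
    by_cases h : x ∈ A
    · rw [r1 x h, p1 x h, ← ENNReal.toReal_eq_toReal_iff' (by finiteness) ci,
        ENNReal.toReal_add (by finiteness) (by finiteness)]
      simp
      norm_num
    · rw [r2 x h, p2 x h]; simp
  · rw [ei, ENNReal.inv_top, zero_add, ← ENNReal.toReal_eq_toReal_iff' (by finiteness)
      (by finiteness), ENNReal.toReal_add (by finiteness) (by finiteness)]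
    simp
    norm_num
  · rintro ⟨-, l, l0, h⟩
    have h' := le_self_add.trans_lt h
    have rt : {x | r x ≠ ⊤} = A := by
      ext x
      by_cases h : x ∈ A
      · simp [r1 x h, h]
      · simp [r2 x h, h]
    rw [rt, setLIntegral_congr_fun mA (g := fun _ => ‖(1 / l : ℂ)‖ₑ ^ (4 : ℝ))
      (fun y hy => by simp only [r1 y hy, ENNReal.toReal_ofNat]), setLIntegral_const, vA,
      ENNReal.mul_top (by simp [l0.ne'])] at h'
    exact lt_irrefl _ h'

end Pool.Agent.Results.MP_598c7e_an.No
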